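import Pool.Graph.R_pool_sql_team_seeded_5cf16337.Results.MP_308fa9_nt.SuperellipticBrauerSets

/-!
# Norms from the algebras `E[T]/(P)` and the local invariants
-/

set_option autoImplicit false
set_option linter.unusedSectionVars false

namespace Pool.Agent.H437.NF

open Polynomial IntermediateField
open Pool.Agent.K3h48.MN (ind ssum Gn kn Good GenBy cs wt)
open Pool.Agent.K3h48.BM (mat mat_charpoly mat_card IsN linv core prep norm_det int alg det_aeval
  map_aeval maps)

universe u v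

/-- the norm from `E[T]/(P)` to `E` of the class of `c` -/
noncomputable def nrm {E : Type*} [Field E] [CharZero E] (P : ℚ[X]) (c : E[X]) : E :=
  Algebra.norm E (AdjoinRoot.mk (P.map (algebraMap ℚ E)) c)

lemma nrm_mul {E : Type*} [Field E] [CharZero E] (P : ℚ[X]) (c c' : E[X]) :
    nrm P (c * c') = nrm P c * nrm P c' := by
  rw [nrm, map_mul, map_mul]; rfl

lemma det_aeval_congr {E : Type*} [Field E] {n n' : Type*} [Fintype n] [DecidableEq n]
    [Fintype n'] [DecidableEq n'] (M : Matrix n n E) (M' : Matrix n' n' E)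
    (h : M.charpoly = M'.charpoly) (c : E[X]) : (aeval M c).det = (aeval M' c).det := by
  apply (algebraMap E (AlgebraicClosure E)).injective
  rw [RingHom.map_det, RingHom.map_det, RingHom.mapMatrix_apply, RingHom.mapMatrix_apply,
    map_aeval, map_aeval, det_aeval _ (IsAlgClosed.splits _) _ (IsAlgClosed.splits _),
    det_aeval _ (IsAlgClosed.splits _) _ (IsAlgClosed.splits _), Matrix.charpoly_map,
    Matrix.charpoly_map, h]

section mk

variable {A : Type*} [Field A] [CharZero A] [Algebra.IsAlgebraic ℚ A]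

lemma nrm_eq_det (θ : A) {E : Type*} [Field E] [CharZero E] (c : E[X]) :
    nrm (minpoly ℚ θ) c = (aeval ((mat θ).map (algebraMap ℚ E)) c).det := by
  classical
  have hmon : ((minpoly ℚ θ).map (algebraMap ℚ E)).Monic := (minpoly.monic (int θ)).map _
  set Q := (minpoly ℚ θ).map (algebraMap ℚ E) with hQ
  let pb := AdjoinRoot.powerBasis hmon.ne_zero
  have h1 : nrm (minpoly ℚ θ) c =
      (aeval (Algebra.leftMulMatrix pb.basis pb.gen) c).det := by
    rw [nrm, Algebra.norm_eq_matrix_det pb.basis, aeval_algHom_apply]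
    congr 2
    rw [AdjoinRoot.powerBasis_gen, AdjoinRoot.aeval_eq]
  rw [h1]
  apply det_aeval_congr
  rw [charpoly_leftMulMatrix, AdjoinRoot.minpoly_powerBasis_gen_of_monic hmon,
    Matrix.charpoly_map, mat_charpoly]

end mk

section loc

variable {ℓ p q : ℕ} [hℓ : Fact ℓ.Prime] [hp : Fact p.Prime] [hq : Fact q.Prime]
  {χ : (ZMod p)ˣ →* Multiplicative (ZMod ℓ)} {ψ : (ZMod q)ˣ →* Multiplicative (ZMod ℓ)}
  {θ : Option (ZMod ℓ) → CyclotomicField (p * q) ℚ}
  {r : ℕ} [hr : Fact r.Prime] {E : Type v} [Field E] [CharZero E] [Algebra ℚ_[r] E]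
  [FiniteDimensional ℚ_[r] E]

/-- the local invariant -/
theorem loc (hG : Good χ ψ) (hθ : ∀ i, GenBy χ ψ (cs i).1 (cs i).2 (θ i))
    (D : Option (ZMod ℓ) → E[X]) (hD : ∀ j, nrm (minpoly ℚ (θ j)) (D j) ≠ 0) {b w : E}
    (hb : b ≠ 0) (hw : w ≠ 0) (h : ∏ j, nrm (minpoly ℚ (θ j)) (D j) = b * w ^ ℓ)
    {m : ZMod ℓ} (hm : m ≠ 0) :
    linv χ (Algebra.norm ℚ_[r] (nrm (minpoly ℚ (θ (some (-m)))) (D (some (-m))))) =
      (((Algebra.norm ℚ_[r] b).valuation : ℤ) : ZMod ℓ) * wt χ ψ m r := by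
  classical
  have := alg
  obtain ⟨ζ, hζ, e, he, hP⟩ := prep hθ
  have hN : ∀ z : E, z ≠ 0 → Algebra.norm ℚ_[r] z ≠ 0 := fun z hz => Algebra.norm_ne_zero_iff.2 hz
  refine core hG hζ he hm (v := fun j => Algebra.norm ℚ_[r] (nrm (minpoly ℚ (θ j)) (D j)))
    (w := Algebra.norm ℚ_[r] w) (fun j => hN _ (hD j)) ?_ (hN _ hb) (hN _ hw) ?_
  · intro j
    change ∃ D' : ℚ_[r][X], _
    rw [← hP j, nrm_eq_det]
    have h1 : (mat (aeval ζ (e j) : AlgebraicClosure ℚ)).map (algebraMap ℚ E) =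
        ((mat (aeval ζ (e j) : AlgebraicClosure ℚ)).map (algebraMap ℚ ℚ_[r])).map
          (algebraMap ℚ_[r] E) := by
      ext i j'
      simp
    rw [h1]
    exact norm_det _ _
  · change ∏ i, Algebra.norm ℚ_[r] (nrm (minpoly ℚ (θ i)) (D i)) = _
    rw [← map_prod, h, map_mul, map_pow]

end loc

end Pool.Agent.H437.NF
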