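import Pool.Agent.H437.NF.Core

/-!
# Varieties defined by products of norms from cyclic fields: definitions
-/

set_option autoImplicit false

namespace Pool.Agent.H437.NF

open Polynomial
open Pool.Agent.Results.MP_308fa9_nt.SuperellipticBrauerSets

universe u v w

section points

variable {k : Type u} [Field k] [CharZero k] {J : Type} [Fintype J] {σ : Type}

/-- The norm from `E[X]/(Q)` to `E` of the class of `c`. -/
noncomputable def normMod {E : Type v} [Field E] (Q c : E[X]) : E :=
  Algebra.norm E (AdjoinRoot.mk Q c)

/-- The polynomial `P` over `ℚ` as a polynomial over `k`. -/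
noncomputable def toField (k : Type u) [Field k] [CharZero k] (P : ℚ[X]) : k[X] :=
  P.map (algebraMap ℚ k)

/-- Let `P` be a monic polynomial over `ℚ` and let `E` be an extension of the field `k` through `ι`.
The norm from `E[X]/(P)` to `E` of the class of `c`. -/
noncomputable def normAt (P : ℚ[X]) {E : Type v} [Field E] (ι : k →+* E) (c : E[X]) : E :=
  normMod ((toField k P).map ι) c

/-- A polynomial `F` in the variables `x_i`, `i ∈ σ`, with coefficients in `k[X]`, evaluated at a
point `x` over the extension `E` of `k`.  The result is an element of `E[X]`. -/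
noncomputable def valueAt (F : MvPolynomial σ k[X]) {E : Type v} [Field E] (ι : k →+* E)
    (x : σ → E) : E[X] :=
  F.eval₂ (Polynomial.mapRingHom ι) (fun i => C (x i))

/-- The points over the extension `E` of `k` of the open subset `w ≠ 0` of the variety
`a w^ℓ = ∏_j N_j(F_j(x))`, where `F_j` is a polynomial in the variables `x_i`, `i ∈ σ`, with
coefficients in `k[X]/(P_j)` and `N_j` is the norm from `E[X]/(P_j)` to `E`. -/
structure Point (ℓ : ℕ) (a : k) (P : J → ℚ[X]) (F : J → MvPolynomial σ k[X]) {E : Type v} [Field E]
    (ι : k →+* E) where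
  /-- the coordinates `x` -/
  x : σ → E
  /-- the coordinate `w` -/
  w : E
  /-- `w` is not zero -/
  ne : w ≠ 0
  /-- the equation -/
  eq : ι a * w ^ ℓ = ∏ j, normAt (P j) ι (valueAt (F j) ι x)

/-- The value at a point of the function `N_j(F_j(x))`. -/
noncomputable def Point.value {ℓ : ℕ} {a : k} {P : J → ℚ[X]} {F : J → MvPolynomial σ k[X]}
    {E : Type v} [Field E] {ι : k →+* E} (z : Point ℓ a P F ι) (j : J) : E :=
  normAt (P j) ι (valueAt (F j) ι z.x)

/-- An element of the support of a zero-cycle over the extension `M` of `k`: a point over a finite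
extension of `M`, with an integral multiplicity.  It stands for the multiple of the image of this
point. -/
structure CycleTerm (ℓ : ℕ) (a : k) (P : J → ℚ[X]) (F : J → MvPolynomial σ k[X]) {M : Type u}
    [Field M] (ι : k →+* M) where
  /-- the multiplicity -/
  mult : ℤ
  /-- the finite extension of `M` -/
  field : Type u
  /-- the extension is a field -/
  [isField : Field field]
  /-- the extension is an algebra over `M` -/
  [isAlgebra : Algebra M field]
  /-- the extension is finite -/
  [isFinite : FiniteDimensional M field]
  /-- the point -/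
  point : Point ℓ a P F ((algebraMap M field).comp ι)

attribute [instance] CycleTerm.isField CycleTerm.isAlgebra CycleTerm.isFinite

/-- Zero-cycles over the extension `M` of `k` of the variety `w ≠ 0`,
`a w^ℓ = ∏_j N_j(F_j(x))`. -/
abbrev ZeroCycle (ℓ : ℕ) (a : k) (P : J → ℚ[X]) (F : J → MvPolynomial σ k[X]) {M : Type u}
    [Field M] (ι : k →+* M) : Type (u + 1) :=
  List (CycleTerm ℓ a P F ι)

/-- The degree over `M` of a zero-cycle. -/
noncomputable def ZeroCycle.degree {ℓ : ℕ} {a : k} {P : J → ℚ[X]} {F : J → MvPolynomial σ k[X]}
    {M : Type u} [Field M] {ι : k →+* M} (z : ZeroCycle ℓ a P F ι) : ℤ :=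
  (z.map fun t => t.mult * (Module.finrank M t.field : ℤ)).sum

/-- The norm to `M` of the value of the function `N_j(F_j(x))` at the point of a term of a zero-cycle
over `M`. -/
noncomputable def CycleTerm.norm {ℓ : ℕ} {a : k} {P : J → ℚ[X]} {F : J → MvPolynomial σ k[X]}
    {M : Type u} [Field M] {ι : k →+* M} (t : CycleTerm ℓ a P F ι) (j : J) : M :=
  Algebra.norm M (t.point.value j)

/-- The local invariant, multiplied by `ℓ`, at the finite place `v` of `L` of the evaluation of the
class `(N_j(F_j(x)), χ)` at a term of a zero-cycle over the completion of `L` at `v`: the multiplicity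
times the invariant of the corestriction of the value of the class at the point; the corestriction of
`(c, χ)` is `(N(c), χ)` for the norm `N`. -/
noncomputable def CycleTerm.localTerm {ℓ p : ℕ} [Fact p.Prime]
    (χ : (ZMod p)ˣ →* Multiplicative (ZMod ℓ)) {a : k} {P : J → ℚ[X]}
    {F : J → MvPolynomial σ k[X]} {L : Type u} [Field L] [NumberField L] (v : FinitePlace L)
    {ι : k →+* Completion v} (j : J) (t : CycleTerm ℓ a P F ι) : ZMod ℓ :=
  (t.mult : ZMod ℓ) * invariantAt χ v (t.norm j)

/-- The local invariant at a zero-cycle over the completion of `L` at `v`: the sum over the terms of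
the zero-cycle. -/
noncomputable def ZeroCycle.localTerm {ℓ p : ℕ} [Fact p.Prime]
    (χ : (ZMod p)ˣ →* Multiplicative (ZMod ℓ)) {a : k} {P : J → ℚ[X]}
    {F : J → MvPolynomial σ k[X]} {L : Type u} [Field L] [NumberField L] (v : FinitePlace L)
    {ι : k →+* Completion v} (j : J) (z : ZeroCycle ℓ a P F ι) : ZMod ℓ :=
  (z.map fun t => t.localTerm χ v j).sum

end points

end Pool.Agent.H437.NF
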