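import Pool.Agent.H437.NF.Sol

/-!
# Points over number fields
-/

set_option autoImplicit false
set_option linter.unusedSectionVars false

namespace Pool.Agent.H437.NF

open Polynomial
open Pool.Agent.Results.MP_308fa9_nt.SuperellipticBrauerSets
open Pool.Agent.K3h48.MN (ind ssum Gn kn Good GenBy cs wt)
open Pool.Agent.K3h48.BM (linv mat)

universe u v

section change

variable {σ : Type} {k : Type u} [Field k] [CharZero k]

lemma valueAt_map (F : MvPolynomial σ k[X]) {E M : Type*} [Field E] [Field M] (ι : k →+* E)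
    (f : E →+* M) (x : σ → E) :
    (valueAt F ι x).map f = valueAt F (f.comp ι) (fun i => f (x i)) := by
  have h := MvPolynomial.eval₂_comp_left (Polynomial.mapRingHom f) (Polynomial.mapRingHom ι)
    (fun i => C (x i)) F
  rw [valueAt, valueAt]
  refine (Eq.trans ?_ h).trans ?_
  · rfl
  · rw [Polynomial.mapRingHom_comp]
    congr 1
    ext i : 1
    simp

lemma normAt_map {A : Type*} [Field A] [CharZero A] [Algebra.IsAlgebraic ℚ A] (θ : A) {E M : Type*}
    [Field E] [Field M] (ι : k →+* E) (f : E →+* M) (c : E[X]) :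
    f (normAt (minpoly ℚ θ) ι c) = normAt (minpoly ℚ θ) (f.comp ι) (c.map f) := by
  have hcE : CharZero E := charZero_of_injective_ringHom ι.injective
  have hcM : CharZero M := charZero_of_injective_ringHom (f.comp ι).injective
  rw [normAt_eq, normAt_eq, nrm_eq_det, nrm_eq_det, map_aeval_matrix]
  congr 3
  ext a b
  have h : f.comp (algebraMap ℚ E) = algebraMap ℚ M := RingHom.ext_rat _ _
  exact congrArg (fun g : ℚ →+* M => g (mat θ a b)) h

end change

section main

variable {ℓ p q : ℕ} [hℓ : Fact ℓ.Prime] [hp : Fact p.Prime] [hq : Fact q.Prime]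
  {χ : (ZMod p)ˣ →* Multiplicative (ZMod ℓ)} {ψ : (ZMod q)ˣ →* Multiplicative (ZMod ℓ)}
  {θ : Option (ZMod ℓ) → CyclotomicField (p * q) ℚ} {σ : Type}
  {k : Type u} [Field k] [NumberField k] {a : k}
  {F : Option (ZMod ℓ) → MvPolynomial σ k[X]}

/-- base change of points -/
noncomputable def Point.base {E M : Type*} [Field E] [Field M] {ι : k →+* E}
    (z : Point ℓ a (fun j => minpoly ℚ (θ j)) F ι) (f : E →+* M) :
    Point ℓ a (fun j => minpoly ℚ (θ j)) F (f.comp ι) where
  x := fun i => f (z.x i)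
  w := f z.w
  ne := (_root_.map_ne_zero f).2 z.ne
  eq := by
    have h := congrArg f z.eq
    rw [map_mul, map_pow, map_prod] at h
    refine h.trans (Finset.prod_congr rfl fun j _ => ?_)
    rw [normAt_map, valueAt_map]

lemma Point.base_value {E M : Type*} [Field E] [Field M] {ι : k →+* E}
    (z : Point ℓ a (fun j => minpoly ℚ (θ j)) F ι) (f : E →+* M) (j : Option (ZMod ℓ)) :
    (z.base f).value j = f (z.value j) := by
  rw [Point.value, Point.value, normAt_map, valueAt_map]
  rfl

/-- the reciprocity law -/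
theorem reciprocity (hG : Good χ ψ) (L : Type u) [Field L] [NumberField L] : Reciprocity χ L := by
  intro b hb
  let e := placeEquiv L
  have h1 : {x : Σ r : Nat.Primes, Pool.Agent.K3h48.BM.Place ℚ_[(r : ℕ)] L |
      invariantAt χ (e x) (embedding (e x) b) ≠ 0}.Finite :=
    Pool.Agent.K3h48.BM.finite_places (p := p) b hb fun v hv hv' => by
      refine (Pool.Agent.K3h48.BM.linv_ne (χ := χ) hv _).trans ?_
      have h3 : (normTo (e v).ideal (embedding (e v) b)).valuation = 0 := hv'
      have h4 : (((normTo (e v).ideal (embedding (e v) b)).valuation : ℤ) : ZMod ℓ) *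
          Pool.Agent.K3h48.MN.ind χ ((v.1 : ℕ) : ZMod p) = 0 := by
        rw [h3, Int.cast_zero, zero_mul]
      exact h4
  refine ⟨(h1.image e).subset fun v hv => ⟨e.symm v, hv, rfl⟩, ?_⟩
  rw [← finsum_comp_equiv e]
  exact (Pool.Agent.K3h48.BM.finsum_sigma h1).trans
    (Pool.Agent.K3h48.BM.reciprocity hG.neg_left hb)

/-- the sum of the local invariants for a family of local zero-cycles -/
theorem family_sum (hG : Good χ ψ) (hθ : ∀ i, GenBy χ ψ (cs i).1 (cs i).2 (θ i)) (ha : a ≠ 0)
    (L : Type u) [Field L] [NumberField L] [Algebra k L] (d : ℤ)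
    (z : ∀ v : FinitePlace L, ZeroCycle ℓ a (fun j => minpoly ℚ (θ j)) F
      ((embedding v).comp (algebraMap k L))) (hz : ∀ v, ZeroCycle.degree (z v) = d)
    {m : ZMod ℓ} (hm : m ≠ 0) :
    {v | ZeroCycle.localTerm χ v (some (-m)) (z v) ≠ 0}.Finite ∧
    ∑ᶠ v, ZeroCycle.localTerm χ v (some (-m)) (z v) =
      d * (Module.finrank k L * invariant χ ψ m (Algebra.norm ℚ a)) := by
  have h1 : ∀ v, ZeroCycle.localTerm χ v (some (-m)) (z v) = (d : ZMod ℓ) *
      ((((normTo v.ideal (embedding v (algebraMap k L a))).valuation : ℤ) : ZMod ℓ) *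
        wt χ ψ m v.prime) := by
    intro v
    rw [loc_cycle hG hθ ha v (z v) hm, hz]
  obtain ⟨h2, h3⟩ := glob (χ := χ) (ψ := ψ) ha L m (d : ZMod ℓ)
  refine ⟨?_, ?_⟩
  · simp_rw [h1]
    exact h2
  · simp_rw [h1]
    exact h3

/-- a number field over which there is a point has degree divisible by `ℓ` -/
theorem degree_dvd (hG : Good χ ψ) (hθ : ∀ i, GenBy χ ψ (cs i).1 (cs i).2 (θ i))
    (hobs : Obstructed χ ψ a) (L : Type u) [Field L] [NumberField L] [Algebra k L]
    (z : Point ℓ a (fun j => minpoly ℚ (θ j)) F (algebraMap k L)) :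
    ℓ ∣ Module.finrank k L := by
  obtain ⟨m, hm, ham⟩ := hobs
  have ha : a ≠ 0 := by
    intro h
    apply ham
    rw [h]
    simp [invariant]
  let fam : ∀ v : FinitePlace L, ZeroCycle ℓ a (fun j => minpoly ℚ (θ j)) F
      ((embedding v).comp (algebraMap k L)) := fun v =>
    [{ mult := 1, field := Completion v, point := (z.base (embedding v)) }]
  have hdeg : ∀ v, ZeroCycle.degree (fam v) = 1 := by
    intro v
    simp [fam, ZeroCycle.degree]
  obtain ⟨-, h1⟩ := family_sum hG hθ ha L 1 fam hdeg hm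
  have h2 : ∀ v, ZeroCycle.localTerm χ v (some (-m)) (fam v) =
      invariantAt χ v (embedding v (z.value (some (-m)))) := by
    intro v
    have h3 : ZeroCycle.localTerm χ v (some (-m)) (fam v) = ((1 : ℤ) : ZMod ℓ) *
        invariantAt χ v (Algebra.norm (Completion v)
          ((z.base (embedding v)).value (some (-m)))) + 0 := rfl
    rw [h3, Point.base_value, Int.cast_one, one_mul, add_zero]
    congr 1
    have h4 := Algebra.norm_algebraMap (R := Completion v) (S := Completion v)
      (embedding v (z.value (some (-m))))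
    rw [Module.finrank_self, pow_one] at h4
    exact h4
  simp_rw [h2] at h1
  rw [(reciprocity hG L _ (value_ne ha z (some (-m)))).2, Int.cast_one, one_mul] at h1
  have h5 : ((Module.finrank k L : ℕ) : ZMod ℓ) = 0 := by
    rcases mul_eq_zero.1 h1.symm with h | h
    · exact h
    · exact absurd h ham
  exact (ZMod.natCast_eq_zero_iff _ _).1 h5

/-- zero-cycles over a number field -/
theorem cycle_dvd (hG : Good χ ψ) (hθ : ∀ i, GenBy χ ψ (cs i).1 (cs i).2 (θ i))
    (hobs : Obstructed χ ψ a) (L : Type u) [Field L] [NumberField L] [Algebra k L]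
    (hL : ¬ ℓ ∣ Module.finrank k L)
    (z : ZeroCycle ℓ a (fun j => minpoly ℚ (θ j)) F (algebraMap k L)) :
    (ℓ : ℤ) ∣ ZeroCycle.degree z := by
  rw [ZeroCycle.degree]
  apply List.dvd_sum
  intro x hx
  rw [List.mem_map] at hx
  obtain ⟨t, -, rfl⟩ := hx
  apply dvd_mul_of_dvd_right
  rw [Int.natCast_dvd_natCast]
  let i1 : Algebra k t.field := ((algebraMap L t.field).comp (algebraMap k L)).toAlgebra
  have i2 : IsScalarTower k L t.field := IsScalarTower.of_algebraMap_eq fun _ => rfl
  have i3 : FiniteDimensional k t.field := FiniteDimensional.trans k L t.field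
  have i4 : CharZero t.field := charZero_of_injective_algebraMap (algebraMap L t.field).injective
  have i5 : NumberField t.field :=
    { to_charZero := i4, to_finiteDimensional := FiniteDimensional.trans ℚ k t.field }
  have h1 := degree_dvd hG hθ hobs t.field t.point
  rw [← Module.finrank_mul_finrank k L t.field] at h1
  exact (hℓ.out.dvd_mul.1 h1).resolve_left hL

end main

section completions

variable {ℓ p q : ℕ} [hℓ : Fact ℓ.Prime] [hp : Fact p.Prime] [hq : Fact q.Prime]
  {χ : (ZMod p)ˣ →* Multiplicative (ZMod ℓ)} {ψ : (ZMod q)ˣ →* Multiplicative (ZMod ℓ)}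
  {θ : Option (ZMod ℓ) → CyclotomicField (p * q) ℚ} {σ : Type}
  {k : Type u} [Field k] [NumberField k] {a : k}
  {F : Option (ZMod ℓ) → MvPolynomial σ k[X]}

lemma point_finite (hG : Good χ ψ) (hθ : ∀ i, GenBy χ ψ (cs i).1 (cs i).2 (θ i)) (ha : a ≠ 0)
    (hF : HasSlice F) (L : Type u) [Field L] [NumberField L] [Algebra k L] (v : FinitePlace L) :
    Nonempty (Point ℓ a (fun j => minpoly ℚ (θ j)) F ((embedding v).comp (algebraMap k L))) := by
  obtain ⟨x, rfl⟩ := (placeEquiv L).surjective v
  have h : Nonempty (Point ℓ a (fun j => minpoly ℚ (θ j)) F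
      ((Pool.Agent.K3h48.BM.emb x.2).comp (algebraMap k L))) :=
    exists_point (E := Pool.Agent.K3h48.BM.Comp x.2) hG hθ ha hF _
      (Or.inl ⟨(x.1 : ℕ), inferInstance, inferInstance, inferInstance⟩)
  exact h

lemma point_real (hG : Good χ ψ) (hθ : ∀ i, GenBy χ ψ (cs i).1 (cs i).2 (θ i)) (ha : a ≠ 0)
    (hF : HasSlice F) (L : Type u) [Field L] [NumberField L] [Algebra k L]
    (v : MaximalSpectrum (RealAlgebra L)) :
    Nonempty (Point ℓ a (fun j => minpoly ℚ (θ j)) F ((realEmbedding v).comp (algebraMap k L))) := by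
  have h : Nonempty (Point ℓ a (fun j => minpoly ℚ (θ j)) F
      ((Pool.Agent.K3h48.BM.emb (K := ℝ) (k := L) v).comp (algebraMap k L))) :=
    exists_point (E := Pool.Agent.K3h48.BM.Comp (K := ℝ) (k := L) v) hG hθ ha hF _
      (Or.inr ⟨inferInstance, inferInstance⟩)
  exact h

end completions

end Pool.Agent.H437.NF
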