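import Pool.Agent.H437.NF.Unram

/-!
# Local solubility
-/

set_option autoImplicit false
set_option linter.unusedSectionVars false

namespace Pool.Agent.H437.NF

open Polynomial
open Pool.Agent.Results.MP_308fa9_nt.SuperellipticBrauerSets
open Pool.Agent.K3h48.MN (ind ssum Gn kn Good GenBy cs wt exists_padic exists_real kap_apply
  exists_aut_kn root_orbit move_iff kap)
open Pool.Agent.K3h48.BM (mat mat_charpoly)
open scoped Topology

universe u v

/-- a polynomial over a complete field with a simple root represents all small values -/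
lemma near_root {E : Type*} [NontriviallyNormedField E] [CompleteSpace E] {f : E[X]} {x₀ : E}
    (h0 : f.eval x₀ = 0) (h1 : f.derivative.eval x₀ ≠ 0) {b : E} (_hb : b ≠ 0) {ℓ : ℕ}
    (hℓ : ℓ ≠ 0) : ∃ x w : E, w ≠ 0 ∧ f.eval x = b * w ^ ℓ := by
  have hd : HasStrictDerivAt (fun x => f.eval x) (f.derivative.eval x₀) x₀ :=
    f.hasStrictDerivAt x₀
  have hmap := hd.map_nhds_eq h1
  have hrange : Set.range (fun x => f.eval x) ∈ 𝓝 (f.eval x₀) := by
    rw [← hmap]
    exact Filter.range_mem_map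
  rw [h0] at hrange
  have hcont : Filter.Tendsto (fun w : E => b * w ^ ℓ) (𝓝 0) (𝓝 0) := by
    have : Continuous fun w : E => b * w ^ ℓ := by fun_prop
    have h2 := this.tendsto 0
    rwa [zero_pow hℓ, mul_zero] at h2
  have h3 : ∀ᶠ w in 𝓝[≠] (0 : E), b * w ^ ℓ ∈ Set.range (fun x => f.eval x) :=
    (hcont.mono_left nhdsWithin_le_nhds).eventually hrange
  have h4 : ∀ᶠ w in 𝓝[≠] (0 : E), w ≠ 0 := eventually_mem_nhdsWithin
  obtain ⟨w, hw1, hw2⟩ := (h3.and h4).exists
  obtain ⟨x, hx⟩ := hw1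
  exact ⟨x, w, hw2, hx⟩

/-- the same over finite extensions of `ℚ_r` -/
lemma near_root_padic {r : ℕ} [hr : Fact r.Prime] {E : Type*} [Field E] [Algebra ℚ_[r] E]
    [FiniteDimensional ℚ_[r] E] {f : E[X]} {x₀ : E}
    (h0 : f.eval x₀ = 0) (h1 : f.derivative.eval x₀ ≠ 0) {b : E} (hb : b ≠ 0) {ℓ : ℕ}
    (hℓ : ℓ ≠ 0) : ∃ x w : E, w ≠ 0 ∧ f.eval x = b * w ^ ℓ := by
  let i1 : NormedField E := spectralNorm.normedField ℚ_[r] E
  let i2 : NormedAlgebra ℚ_[r] E := spectralNorm.normedAlgebra ℚ_[r] E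
  let i3 : NontriviallyNormedField E := NontriviallyNormedField.ofNormNeOne (by
    refine ⟨algebraMap ℚ_[r] E r, ?_, ?_⟩
    · rw [_root_.map_ne_zero]
      exact_mod_cast hr.out.ne_zero
    · rw [norm_algebraMap']
      have := Padic.norm_p_lt_one (p := r)
      exact this.ne)
  have : CompleteSpace E := FiniteDimensional.complete ℚ_[r] E
  exact near_root h0 h1 hb hℓ

/-- the same over finite extensions of `ℝ` -/
lemma near_root_real {E : Type*} [Field E] [Algebra ℝ E] [FiniteDimensional ℝ E] {f : E[X]} {x₀ : E}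
    (h0 : f.eval x₀ = 0) (h1 : f.derivative.eval x₀ ≠ 0) {b : E} (hb : b ≠ 0) {ℓ : ℕ}
    (hℓ : ℓ ≠ 0) : ∃ x w : E, w ≠ 0 ∧ f.eval x = b * w ^ ℓ := by
  have key : ∀ {B : Type} [NontriviallyNormedField B] [CompleteSpace B] [Algebra ℝ B],
      (E ≃ₐ[ℝ] B) → ∃ x w : E, w ≠ 0 ∧ f.eval x = b * w ^ ℓ := by
    intro B _ _ _ e
    have h2 : (f.map (e : E →+* B)).eval (e x₀) = 0 := by
      have := eval_map_apply (f := (e : E →+* B)) (p := f) x₀
      rw [h0] at this
      simpa using this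
    have h3 : (f.map (e : E →+* B)).derivative.eval (e x₀) ≠ 0 := by
      rw [derivative_map]
      have := eval_map_apply (f := (e : E →+* B)) (p := f.derivative) x₀
      intro h4
      apply h1
      apply e.injective
      rw [map_zero]
      exact this.symm.trans h4
    have h4 : e b ≠ 0 := by simpa using hb
    obtain ⟨x, w, hw, hx⟩ := near_root h2 h3 h4 hℓ
    refine ⟨e.symm x, e.symm w, by simpa using hw, ?_⟩
    apply e.injective
    have h5 := eval_map_apply (f := (e : E →+* B)) (p := f) (e.symm x)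
    have h6 : (e : E →+* B) (e.symm x) = x := e.apply_symm_apply x
    rw [h6] at h5
    rw [map_mul, map_pow, e.apply_symm_apply]
    exact h5.symm.trans hx
  have hint : Algebra.IsAlgebraic ℝ E := inferInstance
  rcases Real.nonempty_algEquiv_or E with ⟨⟨e⟩⟩ | ⟨⟨e⟩⟩
  · exact key e
  · exact key e

section points

variable {ℓ p q : ℕ} [hℓ : Fact ℓ.Prime] [hp : Fact p.Prime] [hq : Fact q.Prime]
  {χ : (ZMod p)ˣ →* Multiplicative (ZMod ℓ)} {ψ : (ZMod q)ˣ →* Multiplicative (ZMod ℓ)}
  {θ : Option (ZMod ℓ) → CyclotomicField (p * q) ℚ}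

/-- the minimal polynomials are different -/
lemma minpoly_inj (hG : Good χ ψ) (hθ : ∀ i, GenBy χ ψ (cs i).1 (cs i).2 (θ i))
    {i j : Option (ZMod ℓ)} (hij : i ≠ j) : minpoly ℚ (θ i) ≠ minpoly ℚ (θ j) := by
  intro h
  have := Pool.Agent.K3h48.BM.alg
  obtain ⟨ζ, hζ, e, he, hP⟩ := gens hθ (AlgebraicClosure ℚ)
  obtain ⟨σ, n, hn, hσ, h1, h2⟩ := exists_aut_kn hζ hG.surj_left hG.surj_right hG.ne
    ((cs i).2) (-(cs i).1)
  have h3 : aeval (aeval ζ (e j) : AlgebraicClosure ℚ)
      (minpoly ℚ (aeval ζ (e i) : AlgebraicClosure ℚ)) = 0 := by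
    rw [← hP i, h, hP j]
    exact minpoly.aeval _ _
  obtain ⟨τ, hτ⟩ := root_orbit (k := ℚ) h3
  have h4 := move_iff ((he i).fix_iff hζ) σ τ
  have h5 : kap χ ψ (cs i).1 (cs i).2 hζ σ = 1 := by
    rw [kap_apply hζ hσ, kn, h1, h2]
    have : (cs i).1 * (cs i).2 + (cs i).2 * (-(cs i).1) = 0 := by ring
    rw [this]
    rfl
  rw [hτ] at h4
  have h6 := ((he j).fix_iff hζ σ).1 (h4.2 h5)
  rw [kap_apply hζ hσ] at h6
  have h7 : kn χ ψ (cs j).1 (cs j).2 n = 0 := congrArg Multiplicative.toAdd h6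
  rw [kn, h1, h2] at h7
  match i, j with
  | none, none => exact hij rfl
  | none, some b =>
    simp only [cs] at h7
    simp at h7
  | some a, none =>
    simp only [cs] at h7
    simp at h7
  | some a, some b =>
    simp only [cs] at h7
    apply hij
    congr 1
    linear_combination -h7

/-- the product of the polynomials is separable -/
lemma prod_separable (hG : Good χ ψ) (hθ : ∀ i, GenBy χ ψ (cs i).1 (cs i).2 (θ i)) :
    (∏ j, minpoly ℚ (θ j)).Separable := by
  have hint : ∀ j, IsIntegral ℚ (θ j) := fun j => Algebra.IsIntegral.isIntegral _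
  refine separable_prod ?_ fun j => (minpoly.irreducible (hint j)).separable
  intro i j hij
  refine (minpoly.irreducible (hint i)).isCoprime_or_dvd _ |>.resolve_right ?_
  intro h
  exact minpoly_inj hG hθ hij (eq_of_monic_of_associated (minpoly.monic (hint i))
    (minpoly.monic (hint j)) (((minpoly.irreducible (hint i)).dvd_irreducible_iff_associated
      (minpoly.irreducible (hint j))).1 h))

/-- the value of a minimal polynomial as a norm -/
lemma nrm_linear {A : Type*} [Field A] [CharZero A] [Algebra.IsAlgebraic ℚ A] (θ : A) {E : Type*}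
    [Field E] [CharZero E] (t : E) :
    nrm (minpoly ℚ θ) (C t - X) = ((minpoly ℚ θ).map (algebraMap ℚ E)).eval t := by
  have h1 : ((mat θ).map (algebraMap ℚ E)).charpoly = (minpoly ℚ θ).map (algebraMap ℚ E) := by
    rw [Matrix.charpoly_map, mat_charpoly]
  rw [nrm_eq_det, ← h1, Matrix.eval_charpoly]
  congr 1
  rw [map_sub, aeval_X, aeval_C]
  rfl

variable {σ : Type} {k : Type u} [Field k] [CharZero k] {a : k}
  {F : Option (ZMod ℓ) → MvPolynomial σ k[X]}

/-- the polynomials become `x - θ_j` if all variables except one are zero -/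
def HasSlice {J : Type} (F : J → MvPolynomial σ k[X]) : Prop :=
  ∃ i₀ : σ, ∀ j, F j - (MvPolynomial.X i₀ - MvPolynomial.C (X : k[X])) ∈
    Ideal.span (Set.range fun i : {i : σ // i ≠ i₀} => (MvPolynomial.X i.1 : MvPolynomial σ k[X]))

/-- values of the product of the minimal polynomials over completions -/
theorem exists_tw (hG : Good χ ψ) (hθ : ∀ i, GenBy χ ψ (cs i).1 (cs i).2 (θ i)) (ha : a ≠ 0)
    {E : Type v} [Field E] (ι : k →+* E)
    (hE : (∃ (r : ℕ) (_ : Fact r.Prime) (_ : Algebra ℚ_[r] E), FiniteDimensional ℚ_[r] E) ∨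
      ∃ _ : Algebra ℝ E, FiniteDimensional ℝ E) :
    ∃ t w : E, w ≠ 0 ∧ ι a * w ^ ℓ = ∏ j, normAt (minpoly ℚ (θ j)) ι (C t - X) := by
  classical
  have hcE : CharZero E := charZero_of_injective_ringHom ι.injective
  set f : E[X] := (∏ j, minpoly ℚ (θ j)).map (algebraMap ℚ E) with hf
  have hsep : f.Separable := (prod_separable hG hθ).map
  have hprod : ∀ t : E, ∏ j, normAt (minpoly ℚ (θ j)) ι (C t - X) = f.eval t := by
    intro t
    rw [hf, Polynomial.map_prod, eval_prod]
    refine Finset.prod_congr rfl fun j _ => ?_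
    rw [normAt_eq, nrm_linear]
  have hb : ι a ≠ 0 := (_root_.map_ne_zero ι).2 ha
  -- a root
  have hroot : ∀ {B : Type} [Field B] [CharZero B] [Algebra B E] (i : Option (ZMod ℓ)) (y : B),
      aeval y (minpoly ℚ (θ i)) = 0 → f.eval (algebraMap B E y) = 0 := by
    intro B _ _ _ i y hy
    rw [hf, Polynomial.map_prod, eval_prod]
    refine Finset.prod_eq_zero (Finset.mem_univ i) ?_
    rw [eval_map, ← aeval_def, Pool.Agent.K3h48.MN.aeval_hom (algebraMap B E), hy, map_zero]
  rcases hE with ⟨r, hr, hA, hfd⟩ | ⟨hA, hfd⟩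
  · obtain ⟨i, y, hy⟩ := exists_padic hG θ hθ r
    have h0 := hroot i y hy
    obtain ⟨x, w, hw, hx⟩ := near_root_padic (r := r) h0
      (hsep.eval₂_derivative_ne_zero (RingHom.id E) h0) hb hℓ.out.ne_zero
    exact ⟨x, w, hw, by rw [hprod, hx]⟩
  · obtain ⟨y, hy⟩ := exists_real hG θ hθ none
    have h0 := hroot none y hy
    obtain ⟨x, w, hw, hx⟩ := near_root_real h0
      (hsep.eval₂_derivative_ne_zero (RingHom.id E) h0) hb hℓ.out.ne_zero
    exact ⟨x, w, hw, by rw [hprod, hx]⟩

/-- points over a field with a root of one of the polynomials -/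
theorem exists_point (hG : Good χ ψ) (hθ : ∀ i, GenBy χ ψ (cs i).1 (cs i).2 (θ i)) (ha : a ≠ 0)
    (hF : HasSlice F) {E : Type v} [Field E] (ι : k →+* E)
    (hE : (∃ (r : ℕ) (_ : Fact r.Prime) (_ : Algebra ℚ_[r] E), FiniteDimensional ℚ_[r] E) ∨
      ∃ _ : Algebra ℝ E, FiniteDimensional ℝ E) :
    Nonempty (Point ℓ a (fun j => minpoly ℚ (θ j)) F ι) := by
  classical
  obtain ⟨i₀, hi₀⟩ := hF
  obtain ⟨t, w, hw, h⟩ := exists_tw hG hθ ha ι hE
  -- the slice
  have hval : ∀ (t : E) (j : Option (ZMod ℓ)),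
      valueAt (F j) ι (fun i => if i = i₀ then t else 0) = C t - X := by
    intro t j
    let g : MvPolynomial σ k[X] →+* E[X] :=
      MvPolynomial.eval₂Hom (Polynomial.mapRingHom ι) (fun i => C (if i = i₀ then t else 0))
    have h1 : g (F j - (MvPolynomial.X i₀ - MvPolynomial.C (X : k[X]))) = 0 := by
      have h2 : Ideal.span (Set.range fun i : {i : σ // i ≠ i₀} =>
          (MvPolynomial.X i.1 : MvPolynomial σ k[X])) ≤ RingHom.ker g := by
        rw [Ideal.span_le]
        rintro _ ⟨i, rfl⟩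
        rw [SetLike.mem_coe, RingHom.mem_ker]
        simp only [g, MvPolynomial.coe_eval₂Hom, MvPolynomial.eval₂_X, if_neg i.2, C_0]
      exact h2 (hi₀ j)
    have h3 : g (F j) = g (MvPolynomial.X i₀ - MvPolynomial.C (X : k[X])) := by
      rw [map_sub] at h1
      exact sub_eq_zero.1 h1
    change g (F j) = _
    rw [h3, map_sub]
    simp [g]
  refine ⟨⟨fun i => if i = i₀ then t else 0, w, hw, ?_⟩⟩
  rw [h]
  exact Finset.prod_congr rfl fun j _ => by rw [hval]

end points

end Pool.Agent.H437.NF
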