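import Pool.Agent.H437.NF.Zero

/-!
# The classes are unramified
-/

set_option autoImplicit false
set_option linter.unusedSectionVars false

namespace Pool.Agent.H437.NF

open Polynomial
open Pool.Agent.K3h48.MN (ind ssum Gn kn Good GenBy cs wt kap kap_apply exists_exp' exists_prim
  exists_g roots_eq minpoly_transfer pq_ne exists_aut_kn)
open Pool.Agent.K3h48.BM (linv mat mat_charpoly)

universe u v

section field

variable {ℓ p q : ℕ} [hℓ : Fact ℓ.Prime] [hp : Fact p.Prime] [hq : Fact q.Prime]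
  {χ : (ZMod p)ˣ →* Multiplicative (ZMod ℓ)} {ψ : (ZMod q)ˣ →* Multiplicative (ZMod ℓ)}
  {θ : Option (ZMod ℓ) → CyclotomicField (p * q) ℚ}

/-- the generators in an algebraically closed field -/
lemma gens (hθ : ∀ i, GenBy χ ψ (cs i).1 (cs i).2 (θ i)) (A : Type*) [Field A] [CharZero A]
    [IsAlgClosed A] :
    ∃ (ζ : A) (_ : IsPrimitiveRoot ζ (p * q)) (e : Option (ZMod ℓ) → ℚ[X]),
      (∀ i, Gn χ ψ (cs i).1 (cs i).2 ζ (e i)) ∧
      ∀ i, minpoly ℚ (θ i) = minpoly ℚ (aeval ζ (e i) : A) := by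
  obtain ⟨ζ₀, hζ₀⟩ : ∃ ζ : CyclotomicField (p * q) ℚ, IsPrimitiveRoot ζ (p * q) :=
    ⟨_, IsCyclotomicExtension.zeta_spec (p * q) ℚ _⟩
  have hpos : 0 < p * q := Nat.pos_of_ne_zero pq_ne
  obtain ⟨ζ, hζ⟩ := exists_prim A hpos
  have h1 := fun i => exists_g (hθ i) hζ₀
  choose e he1 he2 using h1
  refine ⟨ζ, hζ, e, fun i => (he2 i).transfer hζ₀ hζ, fun i => ?_⟩
  rw [← minpoly_transfer hpos hζ₀ hζ (e i), ← he1 i]

/-- the degree of the minimal polynomials -/
lemma degree_eq (hG : Good χ ψ) (hθ : ∀ i, GenBy χ ψ (cs i).1 (cs i).2 (θ i))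
    (i : Option (ZMod ℓ)) : (minpoly ℚ (θ i)).natDegree = ℓ := by
  have := Pool.Agent.K3h48.BM.alg
  obtain ⟨ζ, hζ, e, he, hP⟩ := gens hθ (AlgebraicClosure ℚ)
  rw [hP]
  obtain ⟨σ, n, hn, hσ, h1, h2⟩ := exists_aut_kn hζ hG.surj_left hG.surj_right hG.ne
    (if i = none then 1 else 0) (if i = none then 0 else 1)
  refine roots_eq ((he i).fix_iff hζ) (σ := σ) ?_
  rw [kap_apply hζ hσ]
  intro h
  have h3 : kn χ ψ (cs i).1 (cs i).2 n = 0 := congrArg Multiplicative.toAdd h
  rw [kn, h1, h2] at h3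
  cases i with
  | none => simp [cs] at h3
  | some j => simp [cs] at h3

variable {κ : Type*} [Field κ] [CharZero κ]

/-- either all automorphisms act trivially or the polynomial is irreducible -/
lemma root_or_irr (hG : Good χ ψ) (hθ : ∀ i, GenBy χ ψ (cs i).1 (cs i).2 (θ i))
    {ζ : AlgebraicClosure κ} (hζ : IsPrimitiveRoot ζ (p * q)) {e : Option (ZMod ℓ) → ℚ[X]}
    (he : ∀ i, Gn χ ψ (cs i).1 (cs i).2 ζ (e i))
    (hP : ∀ i, minpoly ℚ (θ i) = minpoly ℚ (aeval ζ (e i) : AlgebraicClosure κ))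
    (i : Option (ZMod ℓ)) :
    ((∀ σ : AlgebraicClosure κ ≃ₐ[κ] AlgebraicClosure κ, kap χ ψ (cs i).1 (cs i).2 hζ σ = 1) ∧
      ∃ y : κ, eval₂ (algebraMap ℚ κ) y (minpoly ℚ (θ i)) = 0) ∨
    (Irreducible ((minpoly ℚ (θ i)).map (algebraMap ℚ κ)) ∧
      ¬ ∃ y : κ, eval₂ (algebraMap ℚ κ) y (minpoly ℚ (θ i)) = 0) := by
  have hgal : IsGalois κ (AlgebraicClosure κ) := inferInstance
  by_cases hall : ∀ σ : AlgebraicClosure κ ≃ₐ[κ] AlgebraicClosure κ,
      kap χ ψ (cs i).1 (cs i).2 hζ σ = 1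
  · refine Or.inl ⟨hall, ?_⟩
    have h1 : (aeval ζ (e i) : AlgebraicClosure κ) ∈ (⊥ : IntermediateField κ (AlgebraicClosure κ)) := by
      exact Pool.Agent.W620.SC.mem_of_fixed _ fun σ _ => ((he i).fix_iff hζ σ).2 (hall σ)
    obtain ⟨y, hy⟩ := IntermediateField.mem_bot.1 h1
    refine ⟨y, ?_⟩
    apply (algebraMap κ (AlgebraicClosure κ)).injective
    rw [hom_eval₂, map_zero, hy, hP i]
    have h2 := minpoly.aeval ℚ (aeval ζ (e i) : AlgebraicClosure κ)
    rw [aeval_def] at h2
    rw [← h2]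
    congr 1
  · push Not at hall
    obtain ⟨σ, hσ⟩ := hall
    have hdeg : (minpoly κ (aeval ζ (e i) : AlgebraicClosure κ)).natDegree = ℓ :=
      roots_eq ((he i).fix_iff hζ) hσ
    have hint : IsIntegral κ (aeval ζ (e i) : AlgebraicClosure κ) := Algebra.IsIntegral.isIntegral _
    have hint0 : IsIntegral ℚ (θ i) := Algebra.IsIntegral.isIntegral _
    have hmap : (minpoly ℚ (θ i)).map (algebraMap ℚ κ) = minpoly κ (aeval ζ (e i) : AlgebraicClosure κ) := by
      refine Polynomial.eq_of_monic_of_dvd_of_natDegree_le (minpoly.monic hint)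
        ((minpoly.monic hint0).map _) ?_ ?_
      · apply minpoly.dvd
        rw [aeval_def, eval₂_map, hP i]
        have h2 := minpoly.aeval ℚ (aeval ζ (e i) : AlgebraicClosure κ)
        rw [aeval_def] at h2
        rw [← h2]
        congr 1
      · rw [natDegree_map, degree_eq hG hθ i, hdeg]
    have hirr : Irreducible ((minpoly ℚ (θ i)).map (algebraMap ℚ κ)) := by
      rw [hmap]
      exact minpoly.irreducible hint
    refine Or.inr ⟨hirr, ?_⟩
    rintro ⟨y, hy⟩
    have h3 : ((minpoly ℚ (θ i)).map (algebraMap ℚ κ)).IsRoot y := by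
      rw [IsRoot, eval_map]
      exact hy
    have h4 := Polynomial.degree_eq_one_of_irreducible_of_root hirr h3
    rw [degree_map, degree_eq_natDegree (minpoly.ne_zero hint0), degree_eq hG hθ i] at h4
    have h5 : ℓ = 1 := by exact_mod_cast h4
    exact hℓ.out.one_lt.ne' h5

/-- if two of the polynomials have roots then all have roots -/
lemma two_roots (hG : Good χ ψ) (hθ : ∀ i, GenBy χ ψ (cs i).1 (cs i).2 (θ i))
    {i j : Option (ZMod ℓ)} (hij : i ≠ j)
    (hi : ∃ y : κ, eval₂ (algebraMap ℚ κ) y (minpoly ℚ (θ i)) = 0)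
    (hj : ∃ y : κ, eval₂ (algebraMap ℚ κ) y (minpoly ℚ (θ j)) = 0) (n : Option (ZMod ℓ)) :
    ∃ y : κ, eval₂ (algebraMap ℚ κ) y (minpoly ℚ (θ n)) = 0 := by
  obtain ⟨ζ, hζ, e, he, hP⟩ := gens hθ (AlgebraicClosure κ)
  rcases root_or_irr hG hθ hζ he hP n with ⟨-, h⟩ | ⟨hirr, -⟩
  · exact h
  rcases root_or_irr hG hθ hζ he hP i with ⟨h1, -⟩ | ⟨-, h⟩
  swap
  · exact absurd hi h
  rcases root_or_irr hG hθ hζ he hP j with ⟨h2, -⟩ | ⟨-, h⟩
  swap
  · exact absurd hj h
  rcases root_or_irr hG hθ hζ he hP n with ⟨-, h⟩ | ⟨-, hn⟩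
  · exact h
  exfalso
  -- all automorphisms act trivially
  have h3 : ∀ σ : AlgebraicClosure κ ≃ₐ[κ] AlgebraicClosure κ,
      kap χ ψ (cs n).1 (cs n).2 hζ σ = 1 := by
    intro σ
    obtain ⟨m, hm, hσ⟩ := exists_exp' hζ σ
    have e1 : kn χ ψ (cs i).1 (cs i).2 m = 0 := by
      have := h1 σ
      rw [kap_apply hζ hσ] at this
      exact congrArg Multiplicative.toAdd this
    have e2 : kn χ ψ (cs j).1 (cs j).2 m = 0 := by
      have := h2 σ
      rw [kap_apply hζ hσ] at this
      exact congrArg Multiplicative.toAdd this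
    have e3 : ind χ (m : ZMod p) = 0 ∧ ind ψ (m : ZMod q) = 0 := by
      rw [kn] at e1 e2
      match i, j with
      | none, none => exact absurd rfl hij
      | none, some b =>
        simp only [cs] at e1 e2
        have e4 : ind χ (m : ZMod p) = 0 := by linear_combination e1
        exact ⟨e4, by linear_combination e2 - b * e4⟩
      | some a, none =>
        simp only [cs] at e1 e2
        have e4 : ind χ (m : ZMod p) = 0 := by linear_combination e2
        exact ⟨e4, by linear_combination e1 - a * e4⟩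
      | some a, some b =>
        simp only [cs] at e1 e2
        have hab : a - b ≠ 0 := fun h => hij (by rw [sub_eq_zero.1 h])
        have e4 : ind χ (m : ZMod p) = 0 := by
          apply mul_left_cancel₀ hab
          linear_combination e1 - e2
        exact ⟨e4, by linear_combination e1 - a * e4⟩
    rw [kap_apply hζ hσ, kn, e3.1, e3.2, mul_zero, mul_zero, add_zero]
    rfl
  have hgal : IsGalois κ (AlgebraicClosure κ) := inferInstance
  have h4 : (aeval ζ (e n) : AlgebraicClosure κ) ∈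
      (⊥ : IntermediateField κ (AlgebraicClosure κ)) := by
    exact Pool.Agent.W620.SC.mem_of_fixed _ fun σ _ => ((he n).fix_iff hζ σ).2 (h3 σ)
  obtain ⟨y, hy⟩ := IntermediateField.mem_bot.1 h4
  apply hn
  refine ⟨y, ?_⟩
  apply (algebraMap κ (AlgebraicClosure κ)).injective
  rw [hom_eval₂, map_zero, hy, hP n]
  have h5 := minpoly.aeval ℚ (aeval ζ (e n) : AlgebraicClosure κ)
  rw [aeval_def] at h5
  rw [← h5]
  congr 1

/-- the norm of a nonzero polynomial of small degree is not zero if there is no root -/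
lemma nrm_ne (hG : Good χ ψ) (hθ : ∀ i, GenBy χ ψ (cs i).1 (cs i).2 (θ i))
    {i : Option (ZMod ℓ)} (h : ¬ ∃ y : κ, eval₂ (algebraMap ℚ κ) y (minpoly ℚ (θ i)) = 0)
    {D : κ[X]} (hD : D ≠ 0) (hdeg : D.natDegree < ℓ) : nrm (minpoly ℚ (θ i)) D ≠ 0 := by
  obtain ⟨ζ, hζ, e, he, hP⟩ := gens hθ (AlgebraicClosure κ)
  rcases root_or_irr hG hθ hζ he hP i with ⟨-, h1⟩ | ⟨hirr, -⟩
  · exact absurd h1 h
  have : Fact (Irreducible ((minpoly ℚ (θ i)).map (algebraMap ℚ κ))) := ⟨hirr⟩
  rw [nrm]
  have hmon : ((minpoly ℚ (θ i)).map (algebraMap ℚ κ)).Monic :=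
    (minpoly.monic (Algebra.IsIntegral.isIntegral _)).map _
  have hfd : FiniteDimensional κ (AdjoinRoot ((minpoly ℚ (θ i)).map (algebraMap ℚ κ))) :=
    (AdjoinRoot.powerBasis hmon.ne_zero).finite
  rw [Algebra.norm_ne_zero_iff, Ne, AdjoinRoot.mk_eq_zero]
  intro h2
  have h3 := Polynomial.natDegree_le_of_dvd h2 hD
  rw [natDegree_map, degree_eq hG hθ i] at h3
  omega

end field

section matrices

lemma map_aeval_matrix {n : Type*} [Fintype n] [DecidableEq n] {R S : Type*} [CommRing R]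
    [CommRing S] (f : R →+* S) (M : Matrix n n R) (D : R[X]) :
    f (aeval M D).det = (aeval (M.map f) (D.map f)).det := by
  rw [RingHom.map_det]
  congr 1
  rw [aeval_def, hom_eval₂, aeval_def, eval₂_map]
  congr 1
  ext x i j
  simp [Matrix.algebraMap_matrix_apply, apply_ite f]

end matrices

section valuation

variable {ℓ p q : ℕ} [hℓ : Fact ℓ.Prime] [hp : Fact p.Prime] [hq : Fact q.Prime]
  {χ : (ZMod p)ˣ →* Multiplicative (ZMod ℓ)} {ψ : (ZMod q)ˣ →* Multiplicative (ZMod ℓ)}
  {θ : Option (ZMod ℓ) → CyclotomicField (p * q) ℚ}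
  {k : Type*} [Field k] [CharZero k] {O K : Type*} [CommRing O] [IsDomain O] [ValuationRing O]
  [Field K] [Algebra O K] [IsFractionRing O K] [Algebra k O] [Algebra k K] [IsScalarTower k O K]

/-- scaling a polynomial over the field to a primitive polynomial over the valuation ring -/
lemma exists_primitive {D : K[X]} (hD : D ≠ 0) : ∃ (c : K) (D' : O[X]), c ≠ 0 ∧
    D = C c * D'.map (algebraMap O K) ∧ D'.map (IsLocalRing.residue O) ≠ 0 ∧
      D'.natDegree ≤ D.natDegree := by
  obtain ⟨i, hi, hmax⟩ := Finset.exists_max_image D.support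
    (fun i => ValuationRing.valuation O K (D.coeff i)) (Polynomial.support_nonempty.2 hD)
  have hc : D.coeff i ≠ 0 := Polynomial.mem_support_iff.1 hi
  have hlift : C (D.coeff i)⁻¹ * D ∈ Polynomial.lifts (algebraMap O K) := by
    rw [Polynomial.lifts_iff_coeff_lifts]
    intro j
    rw [coeff_C_mul]
    have h1 : ValuationRing.valuation O K ((D.coeff i)⁻¹ * D.coeff j) ≤ 1 := by
      rw [map_mul, map_inv₀]
      have h2 : ValuationRing.valuation O K (D.coeff j) ≤
          ValuationRing.valuation O K (D.coeff i) := by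
        by_cases hj : D.coeff j = 0
        · rw [hj, map_zero]
          exact zero_le
        · exact hmax j (Polynomial.mem_support_iff.2 hj)
      have h3 : ValuationRing.valuation O K (D.coeff i) ≠ 0 :=
        (Valuation.ne_zero_iff _).2 hc
      calc (ValuationRing.valuation O K (D.coeff i))⁻¹ * ValuationRing.valuation O K (D.coeff j)
          ≤ (ValuationRing.valuation O K (D.coeff i))⁻¹ *
            ValuationRing.valuation O K (D.coeff i) := by gcongr
        _ = 1 := inv_mul_cancel₀ h3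
    exact (ValuationRing.mem_integer_iff O K _).1 h1
  obtain ⟨D', hD'⟩ := (Polynomial.mem_lifts _).1 hlift
  have hinj : Function.Injective (algebraMap O K) := IsFractionRing.injective O K
  refine ⟨D.coeff i, D', hc, ?_, ?_, ?_⟩
  · rw [hD', ← mul_assoc, ← C_mul, mul_inv_cancel₀ hc, C_1, one_mul]
  · intro h
    have h1 : (D'.map (IsLocalRing.residue O)).coeff i = 0 := by rw [h, coeff_zero]
    have h2 : D'.coeff i = 1 := by
      apply hinj
      rw [← coeff_map, hD', coeff_C_mul, inv_mul_cancel₀ hc, map_one]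
    rw [coeff_map, h2, map_one] at h1
    exact one_ne_zero h1
  · rw [← Polynomial.natDegree_map_eq_of_injective hinj, hD']
    exact natDegree_C_mul_le _ _

/-- the norms are units up to `ℓ`-th powers if the field is not contained in the residue field -/
theorem norm_unit [CharZero K] (hG : Good χ ψ) (hθ : ∀ i, GenBy χ ψ (cs i).1 (cs i).2 (θ i))
    {i : Option (ZMod ℓ)} (h : ¬ ∃ y : IsLocalRing.ResidueField O,
      eval₂ (((IsLocalRing.residue O).comp (algebraMap k O)).comp (algebraMap ℚ k)) y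
        (minpoly ℚ (θ i)) = 0) {D : K[X]} (hD : nrm (minpoly ℚ (θ i)) D ≠ 0) :
    ∃ (u : Oˣ) (c : K), nrm (minpoly ℚ (θ i)) D = algebraMap O K u * c ^ ℓ := by
  have hchar : CharZero (IsLocalRing.ResidueField O) :=
    charZero_of_injective_ringHom ((IsLocalRing.residue O).comp (algebraMap k O)).injective
  have hring : ((IsLocalRing.residue O).comp (algebraMap k O)).comp (algebraMap ℚ k) =
      algebraMap ℚ (IsLocalRing.ResidueField O) := RingHom.ext_rat _ _
  rw [hring] at h
  have hmon : ((minpoly ℚ (θ i)).map (algebraMap ℚ K)).Monic :=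
    (minpoly.monic (Algebra.IsIntegral.isIntegral _)).map _
  have hdegP : ((minpoly ℚ (θ i)).map (algebraMap ℚ K)).natDegree = ℓ := by
    rw [natDegree_map, degree_eq hG hθ i]
  let pb := AdjoinRoot.powerBasis hmon.ne_zero
  have hfd : FiniteDimensional K (AdjoinRoot ((minpoly ℚ (θ i)).map (algebraMap ℚ K))) :=
    pb.finite
  have hfr : Module.finrank K (AdjoinRoot ((minpoly ℚ (θ i)).map (algebraMap ℚ K))) = ℓ := by
    rw [pb.finrank, AdjoinRoot.powerBasis_dim, hdegP]
  have hnt : Nontrivial (AdjoinRoot ((minpoly ℚ (θ i)).map (algebraMap ℚ K))) := by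
    apply Module.nontrivial_of_finrank_pos (R := K)
    rw [hfr]
    exact hℓ.out.pos
  -- reduction modulo the polynomial
  set D₁ := D %ₘ ((minpoly ℚ (θ i)).map (algebraMap ℚ K)) with hD₁
  have h1 : nrm (minpoly ℚ (θ i)) D = nrm (minpoly ℚ (θ i)) D₁ := by
    rw [nrm, nrm]
    congr 1
    rw [AdjoinRoot.mk_eq_mk]
    refine ⟨D /ₘ ((minpoly ℚ (θ i)).map (algebraMap ℚ K)), ?_⟩
    have := Polynomial.modByMonic_add_div D ((minpoly ℚ (θ i)).map (algebraMap ℚ K))
    linear_combination -this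
  have h2 : D₁ ≠ 0 := by
    intro h3
    apply hD
    rw [h1, h3, nrm, map_zero, Algebra.norm_zero]
  have h3 : D₁.natDegree < ℓ := by
    rw [← hdegP]
    refine natDegree_modByMonic_lt _ hmon ?_
    intro h4
    rw [h4, natDegree_one] at hdegP
    exact hℓ.out.ne_zero hdegP.symm
  obtain ⟨c, D', hc, hDc, hres, hdeg⟩ := exists_primitive (O := O) h2
  -- the determinant
  let M : Matrix _ _ O := (mat (θ i)).map ((algebraMap k O).comp (algebraMap ℚ k))
  have hM1 : M.map (algebraMap O K) = (mat (θ i)).map (algebraMap ℚ K) := by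
    have hr1 : (algebraMap O K).comp ((algebraMap k O).comp (algebraMap ℚ k)) =
        algebraMap ℚ K := RingHom.ext_rat _ _
    ext a b
    exact congrArg (fun f : ℚ →+* K => f (mat (θ i) a b)) hr1
  have hM2 : M.map (IsLocalRing.residue O) =
      (mat (θ i)).map (algebraMap ℚ (IsLocalRing.ResidueField O)) := by
    ext a b
    exact congrArg (fun f : ℚ →+* IsLocalRing.ResidueField O => f (mat (θ i) a b)) hring
  have h4 : nrm (minpoly ℚ (θ i)) (D'.map (algebraMap O K)) = algebraMap O K (aeval M D').det := by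
    rw [nrm_eq_det, map_aeval_matrix, hM1]
  have h5 : IsLocalRing.residue O (aeval M D').det =
      nrm (minpoly ℚ (θ i)) (D'.map (IsLocalRing.residue O)) := by
    rw [nrm_eq_det, map_aeval_matrix, hM2]
  have h6 : IsUnit (aeval M D').det := by
    by_contra h7
    have h8 : IsLocalRing.residue O (aeval M D').det = 0 := by
      rw [IsLocalRing.residue_eq_zero_iff]
      exact (IsLocalRing.mem_maximalIdeal _).2 h7
    rw [h5] at h8
    refine nrm_ne hG hθ h hres ?_ h8
    exact lt_of_le_of_lt (natDegree_map_le.trans hdeg) h3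
  obtain ⟨u, hu⟩ := h6
  refine ⟨u, c, ?_⟩
  have h7 : nrm (minpoly ℚ (θ i)) (C c) = c ^ ℓ := by
    rw [nrm, AdjoinRoot.mk_C]
    have h8 := Algebra.norm_algebraMap (R := K)
      (S := AdjoinRoot ((minpoly ℚ (θ i)).map (algebraMap ℚ K))) c
    rw [hfr] at h8
    exact h8
  rw [h1, hDc, nrm_mul, h7, h4, ← hu]
  ring

end valuation

section final

variable {ℓ p q : ℕ} [hℓ : Fact ℓ.Prime] [hp : Fact p.Prime] [hq : Fact q.Prime]
  {χ : (ZMod p)ˣ →* Multiplicative (ZMod ℓ)} {ψ : (ZMod q)ˣ →* Multiplicative (ZMod ℓ)}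
  {θ : Option (ZMod ℓ) → CyclotomicField (p * q) ℚ}
  {k : Type u} [Field k] [CharZero k] {O K : Type v} [CommRing O] [IsDomain O] [ValuationRing O]
  [Field K] [Algebra O K] [IsFractionRing O K] [Algebra k O] [Algebra k K] [IsScalarTower k O K]
  {σ : Type} {a : k} {F : Option (ZMod ℓ) → MvPolynomial σ k[X]}

/-- the classes are unramified -/
theorem unramified (hG : Good χ ψ) (hθ : ∀ i, GenBy χ ψ (cs i).1 (cs i).2 (θ i)) (ha : a ≠ 0)
    (z : Point ℓ a (fun j => minpoly ℚ (θ j)) F (algebraMap k K)) (i n : Option (ZMod ℓ)) :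
    (∃ (u : Oˣ) (c : K), z.value i = algebraMap O K u * c ^ ℓ) ∨
      ∃ y : IsLocalRing.ResidueField O,
        eval₂ (((IsLocalRing.residue O).comp (algebraMap k O)).comp (algebraMap ℚ k)) y
          (minpoly ℚ (θ n)) = 0 := by
  classical
  have hcK : CharZero K := charZero_of_injective_ringHom (algebraMap k K).injective
  have hchar : CharZero (IsLocalRing.ResidueField O) :=
    charZero_of_injective_ringHom ((IsLocalRing.residue O).comp (algebraMap k O)).injective
  have hring : ((IsLocalRing.residue O).comp (algebraMap k O)).comp (algebraMap ℚ k) =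
      algebraMap ℚ (IsLocalRing.ResidueField O) := RingHom.ext_rat _ _
  have hval : ∀ j, z.value j = nrm (minpoly ℚ (θ j)) (valueAt (F j) (algebraMap k K) z.x) :=
    fun j => normAt_eq _ _ _
  have hunit : ∀ j, (¬ ∃ y : IsLocalRing.ResidueField O,
      eval₂ (((IsLocalRing.residue O).comp (algebraMap k O)).comp (algebraMap ℚ k)) y
        (minpoly ℚ (θ j)) = 0) → ∃ (u : Oˣ) (c : K), z.value j = algebraMap O K u * c ^ ℓ := by
    intro j hj
    rw [hval]
    refine norm_unit hG hθ hj ?_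
    rw [← hval]
    exact value_ne ha z j
  by_cases hn : ∃ y : IsLocalRing.ResidueField O,
        eval₂ (((IsLocalRing.residue O).comp (algebraMap k O)).comp (algebraMap ℚ k)) y
          (minpoly ℚ (θ n)) = 0
  · exact Or.inr hn
  left
  by_cases hi : ∃ y : IsLocalRing.ResidueField O,
        eval₂ (((IsLocalRing.residue O).comp (algebraMap k O)).comp (algebraMap ℚ k)) y
          (minpoly ℚ (θ i)) = 0
  swap
  · exact hunit i hi
  have hother : ∀ j, j ≠ i → ∃ (u : Oˣ) (c : K), z.value j = algebraMap O K u * c ^ ℓ := by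
    intro j hj
    refine hunit j fun hj' => hn ?_
    rw [hring] at hi hj' ⊢
    exact two_roots hG hθ hj hj' hi n
  choose u c huc using hother
  have hsplit := Finset.mul_prod_erase Finset.univ (fun j => z.value j) (Finset.mem_univ i)
  have hprod : ∏ j ∈ Finset.univ.erase i, z.value j =
      algebraMap O K ((∏ j ∈ (Finset.univ.erase i).attach,
        u j.1 (Finset.ne_of_mem_erase j.2) : Oˣ) : O) *
      (∏ j ∈ (Finset.univ.erase i).attach, c j.1 (Finset.ne_of_mem_erase j.2)) ^ ℓ := by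
    rw [← Finset.prod_attach, Units.coe_prod, map_prod, ← Finset.prod_pow,
      ← Finset.prod_mul_distrib]
    exact Finset.prod_congr rfl fun j _ => huc j.1 (Finset.ne_of_mem_erase j.2)
  set U : Oˣ := ∏ j ∈ (Finset.univ.erase i).attach, u j.1 (Finset.ne_of_mem_erase j.2) with hU
  set Z : K := ∏ j ∈ (Finset.univ.erase i).attach, c j.1 (Finset.ne_of_mem_erase j.2) with hZ
  have hne : ∏ j ∈ Finset.univ.erase i, z.value j ≠ 0 :=
    Finset.prod_ne_zero_iff.2 fun j _ => value_ne ha z j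
  have hZ0 : Z ≠ 0 := by
    intro h
    apply hne
    rw [hprod, h, zero_pow hℓ.out.ne_zero, mul_zero]
  have heq : algebraMap k K a * z.w ^ ℓ = z.value i * (algebraMap O K (U : O) * Z ^ ℓ) := by
    rw [← hprod, hsplit]
    exact z.eq
  have hau : IsUnit (algebraMap k O a) := (IsUnit.mk0 a ha).map _
  obtain ⟨A, hA⟩ := hau
  refine ⟨A * U⁻¹, z.w / Z, ?_⟩
  have hU1 : algebraMap O K (U : O) * algebraMap O K ((U⁻¹ : Oˣ) : O) = 1 := by
    rw [← map_mul, Units.mul_inv, map_one]
  rw [Units.val_mul, map_mul, hA, ← IsScalarTower.algebraMap_apply k O K, div_pow]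
  field_simp
  have h9 : z.value i = z.value i * (algebraMap O K (U : O) *
      algebraMap O K ((U⁻¹ : Oˣ) : O)) := by rw [hU1, mul_one]
  calc z.value i * Z ^ ℓ = (z.value i * (algebraMap O K (U : O) * Z ^ ℓ)) *
        algebraMap O K ((U⁻¹ : Oˣ) : O) := by
          rw [h9]; linear_combination (-z.value i * Z ^ ℓ * (algebraMap O K (U : O) *
            algebraMap O K ((U⁻¹ : Oˣ) : O))) * hU1
    _ = _ := by rw [← heq]; ring

end final

end Pool.Agent.H437.NF
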