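import Pool.Agent.H437.NF.Defs

/-!
# Zero-cycles: the local and the global formula
-/

set_option autoImplicit false
set_option linter.unusedSectionVars false

namespace Pool.Agent.H437.NF

open Polynomial
open Pool.Agent.Results.MP_308fa9_nt.SuperellipticBrauerSets
open Pool.Agent.K3h48.MN (ind ssum Gn kn Good GenBy cs wt)
open Pool.Agent.K3h48.BM (linv)

universe u v

lemma map_rat {k : Type*} [Field k] [CharZero k] {E : Type*} [Field E] [CharZero E] (ι : k →+* E)
    (P : ℚ[X]) : (P.map (algebraMap ℚ k)).map ι = P.map (algebraMap ℚ E) := by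
  rw [Polynomial.map_map]
  congr 1
  exact RingHom.ext_rat _ _

lemma normAt_eq {k : Type*} [Field k] [CharZero k] {E : Type*} [Field E] [CharZero E]
    (P : ℚ[X]) (ι : k →+* E) (c : E[X]) : normAt P ι c = nrm P c := by
  rw [normAt, nrm, normMod, toField]
  have h := map_rat ι P
  generalize (P.map (algebraMap ℚ k)).map ι = Q at h ⊢
  subst h
  rfl

section loc

variable {ℓ p q : ℕ} [hℓ : Fact ℓ.Prime] [hp : Fact p.Prime] [hq : Fact q.Prime]
  {χ : (ZMod p)ˣ →* Multiplicative (ZMod ℓ)} {ψ : (ZMod q)ˣ →* Multiplicative (ZMod ℓ)}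
  {θ : Option (ZMod ℓ) → CyclotomicField (p * q) ℚ} {σ : Type}
  {k : Type u} [Field k] [CharZero k] {a : k}
  {F : Option (ZMod ℓ) → MvPolynomial σ k[X]}

lemma value_ne {E : Type v} [Field E] {ι : k →+* E} (ha : a ≠ 0)
    (z : Point ℓ a (fun j => minpoly ℚ (θ j)) F ι) (j : Option (ZMod ℓ)) : z.value j ≠ 0 := by
  intro h
  have h1 := z.eq
  have h2 : ∏ j, normAt (minpoly ℚ (θ j)) ι (valueAt (F j) ι z.x) = 0 :=
    Finset.prod_eq_zero (Finset.mem_univ j) h
  rw [h2] at h1
  exact mul_ne_zero ((_root_.map_ne_zero ι).2 ha) (pow_ne_zero _ z.ne) h1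

/-- the local invariant at a point over a finite extension of `ℚ_r` -/
theorem loc_point {r : ℕ} [hr : Fact r.Prime] {E : Type v} [Field E] [CharZero E]
    [Algebra ℚ_[r] E] [FiniteDimensional ℚ_[r] E] (hG : Good χ ψ)
    (hθ : ∀ i, GenBy χ ψ (cs i).1 (cs i).2 (θ i)) {ι : k →+* E} (ha : a ≠ 0)
    (z : Point ℓ a (fun j => minpoly ℚ (θ j)) F ι) {m : ZMod ℓ} (hm : m ≠ 0) :
    linv χ (Algebra.norm ℚ_[r] (z.value (some (-m)))) =
      (((Algebra.norm ℚ_[r] (ι a)).valuation : ℤ) : ZMod ℓ) * wt χ ψ m r := by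
  have h1 : ∀ j, z.value j = nrm (minpoly ℚ (θ j)) (valueAt (F j) ι z.x) := fun j =>
    normAt_eq _ _ _
  rw [h1]
  refine loc hG hθ (fun j => valueAt (F j) ι z.x) (fun j => ?_)
    ((_root_.map_ne_zero ι).2 ha) z.ne ?_ hm
  · rw [← h1]
    exact value_ne ha z j
  · rw [z.eq]
    exact Finset.prod_congr rfl fun j _ => (h1 j).symm

end loc

section term

variable {ℓ p q : ℕ} [hℓ : Fact ℓ.Prime] [hp : Fact p.Prime] [hq : Fact q.Prime]
  {χ : (ZMod p)ˣ →* Multiplicative (ZMod ℓ)} {ψ : (ZMod q)ˣ →* Multiplicative (ZMod ℓ)}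
  {θ : Option (ZMod ℓ) → CyclotomicField (p * q) ℚ} {σ : Type}
  {k : Type u} [Field k] [NumberField k] {a : k}
  {F : Option (ZMod ℓ) → MvPolynomial σ k[X]}

/-- the places -/
def placeEquiv (L : Type u) [Field L] [NumberField L] :
    (Σ r : Nat.Primes, Pool.Agent.K3h48.BM.Place ℚ_[(r : ℕ)] L) ≃ FinitePlace L where
  toFun := fun x => ⟨x.1, ⟨x.1.2⟩, x.2.asIdeal, x.2.isMaximal⟩
  invFun := fun v => ⟨⟨v.prime, v.fact.out⟩, ⟨v.ideal, v.maximal⟩⟩
  left_inv := fun _ => rfl
  right_inv := fun _ => rfl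

/-- the local invariant at a term of a zero-cycle -/
theorem loc_tower (hG : Good χ ψ) (hθ : ∀ i, GenBy χ ψ (cs i).1 (cs i).2 (θ i)) (ha : a ≠ 0)
    {r : ℕ} [hr : Fact r.Prime] {M : Type u} [Field M] [Algebra ℚ_[r] M]
    [FiniteDimensional ℚ_[r] M] {ι : k →+* M}
    (t : CycleTerm ℓ a (fun j => minpoly ℚ (θ j)) F ι) {m : ZMod ℓ} (hm : m ≠ 0) :
    linv χ (Algebra.norm ℚ_[r] (Algebra.norm M (t.point.value (some (-m))))) =
      ((Module.finrank M t.field : ℕ) : ZMod ℓ) *
        ((((Algebra.norm ℚ_[r] (ι a)).valuation : ℤ) : ZMod ℓ) * wt χ ψ m r) := by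
  let i3 : Algebra ℚ_[r] t.field := ((algebraMap M t.field).comp (algebraMap ℚ_[r] M)).toAlgebra
  have i4 : IsScalarTower ℚ_[r] M t.field := IsScalarTower.of_algebraMap_eq fun _ => rfl
  have i5 : FiniteDimensional ℚ_[r] t.field := FiniteDimensional.trans ℚ_[r] M t.field
  have i6 : CharZero t.field :=
    charZero_of_injective_algebraMap (algebraMap ℚ_[r] t.field).injective
  rw [Algebra.norm_norm, loc_point hG hθ ha t.point hm]
  have h2 : Algebra.norm ℚ_[r] (((algebraMap M t.field).comp ι) a) =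
      (Algebra.norm ℚ_[r] (ι a)) ^ (Module.finrank M t.field) := by
    rw [← Algebra.norm_norm (R := ℚ_[r]) (S := M), RingHom.comp_apply, Algebra.norm_algebraMap,
      map_pow]
  rw [h2, Padic.valuation_pow]
  push_cast
  rw [mul_assoc]

/-- the local invariant at a zero-cycle -/
theorem loc_cycle (hG : Good χ ψ) (hθ : ∀ i, GenBy χ ψ (cs i).1 (cs i).2 (θ i)) (ha : a ≠ 0)
    {L : Type u} [Field L] [NumberField L] [Algebra k L] (v : FinitePlace L)
    (z : ZeroCycle ℓ a (fun j => minpoly ℚ (θ j)) F ((embedding v).comp (algebraMap k L)))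
    {m : ZMod ℓ} (hm : m ≠ 0) :
    ZeroCycle.localTerm χ v (some (-m)) z = ((ZeroCycle.degree z : ℤ) : ZMod ℓ) *
      ((((normTo v.ideal (embedding v (algebraMap k L a))).valuation : ℤ) : ZMod ℓ) *
        wt χ ψ m v.prime) := by
  classical
  have key : ∀ t : CycleTerm ℓ a (fun j => minpoly ℚ (θ j)) F
      ((embedding v).comp (algebraMap k L)),
      invariantAt χ v (Algebra.norm (Completion v) (t.point.value (some (-m)))) =
        ((Module.finrank (Completion v) t.field : ℕ) : ZMod ℓ) *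
        ((((normTo v.ideal (embedding v (algebraMap k L a))).valuation : ℤ) : ZMod ℓ) *
          wt χ ψ m v.prime) := by
    obtain ⟨x, rfl⟩ := (placeEquiv L).surjective v
    have h : ∀ t : CycleTerm ℓ a (fun j => minpoly ℚ (θ j)) F
        ((Pool.Agent.K3h48.BM.emb x.2).comp (algebraMap k L)),
        linv χ (Algebra.norm ℚ_[(x.1 : ℕ)] (Algebra.norm (Pool.Agent.K3h48.BM.Comp x.2)
          (t.point.value (some (-m))))) =
        ((Module.finrank (Pool.Agent.K3h48.BM.Comp x.2) t.field : ℕ) : ZMod ℓ) *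
        ((((Algebra.norm ℚ_[(x.1 : ℕ)] (((Pool.Agent.K3h48.BM.emb x.2).comp
          (algebraMap k L)) a)).valuation : ℤ) : ZMod ℓ) * wt χ ψ m x.1) := fun t =>
      loc_tower hG hθ ha t hm
    exact h
  induction z with
  | nil => simp [ZeroCycle.localTerm, ZeroCycle.degree]
  | cons t z ih =>
    have h1 : ZeroCycle.localTerm χ v (some (-m)) (t :: z) =
        (t.mult : ZMod ℓ) * invariantAt χ v (Algebra.norm (Completion v)
          (t.point.value (some (-m)))) + ZeroCycle.localTerm χ v (some (-m)) z := by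
      rw [ZeroCycle.localTerm, List.map_cons, List.sum_cons]
      rfl
    have h2 : ZeroCycle.degree (t :: z) = t.mult * (Module.finrank (Completion v) t.field : ℤ) +
        ZeroCycle.degree z := by
      rw [ZeroCycle.degree, List.map_cons, List.sum_cons]
      rfl
    rw [h1, h2, ih, key]
    push_cast
    ring

end term

section global

variable {ℓ p q : ℕ} [hℓ : Fact ℓ.Prime] [hp : Fact p.Prime] [hq : Fact q.Prime]
  {χ : (ZMod p)ˣ →* Multiplicative (ZMod ℓ)} {ψ : (ZMod q)ˣ →* Multiplicative (ZMod ℓ)}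
  {θ : Option (ZMod ℓ) → CyclotomicField (p * q) ℚ} {σ : Type}
  {k : Type u} [Field k] [NumberField k] {a : k}
  {F : Option (ZMod ℓ) → MvPolynomial σ k[X]}

/-- the global formula for the weighted valuations of an element of `k` -/
theorem glob (ha : a ≠ 0) (L : Type u) [Field L] [NumberField L] [Algebra k L] (m : ZMod ℓ)
    (d : ZMod ℓ) :
    {v : FinitePlace L | d * ((((normTo v.ideal (embedding v (algebraMap k L a))).valuation : ℤ) :
      ZMod ℓ) * wt χ ψ m v.prime) ≠ 0}.Finite ∧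
    ∑ᶠ v : FinitePlace L, d * ((((normTo v.ideal (embedding v
      (algebraMap k L a))).valuation : ℤ) : ZMod ℓ) * wt χ ψ m v.prime) =
      d * (Module.finrank k L * invariant χ ψ m (Algebra.norm ℚ a)) := by
  classical
  have haL : algebraMap k L a ≠ 0 := (_root_.map_ne_zero _).2 ha
  let e := placeEquiv L
  have hfin0 : {v : Σ r : Nat.Primes, Pool.Agent.K3h48.BM.Place ℚ_[(r : ℕ)] L |
      (((Algebra.norm ℚ_[(v.1 : ℕ)] (Pool.Agent.K3h48.BM.emb v.2
        (algebraMap k L a))).valuation : ℤ) : ZMod ℓ) *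
        Pool.Agent.K3h48.MN.wt χ ψ m v.1 ≠ 0}.Finite :=
    Pool.Agent.K3h48.BM.finite_places (p := p) _ haL fun v _ hv => by
      rw [hv, Int.cast_zero, zero_mul]
  have hfin : {v : Σ r : Nat.Primes, Pool.Agent.K3h48.BM.Place ℚ_[(r : ℕ)] L |
      d * ((((Algebra.norm ℚ_[(v.1 : ℕ)] (Pool.Agent.K3h48.BM.emb v.2
        (algebraMap k L a))).valuation : ℤ) : ZMod ℓ) *
        Pool.Agent.K3h48.MN.wt χ ψ m v.1) ≠ 0}.Finite := by
    refine hfin0.subset fun v hv h => hv ?_
    rw [h, mul_zero]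
  refine ⟨?_, ?_⟩
  · refine (hfin.image e).subset fun v hv => ⟨e.symm v, hv, rfl⟩
  · have h1 := Pool.Agent.K3h48.BM.sum_places (Pool.Agent.K3h48.MN.wt χ ψ m) haL
    have h2 : Algebra.norm ℚ (algebraMap k L a) = Algebra.norm ℚ a ^ Module.finrank k L := by
      rw [← Algebra.norm_norm (R := ℚ) (S := k), Algebra.norm_algebraMap, map_pow]
    rw [h2, Pool.Agent.K3h48.MN.ssum_pow _ (Algebra.norm_ne_zero_iff.2 ha)] at h1
    have h3 : ∑ᶠ v : FinitePlace L, (((normTo v.ideal (embedding v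
        (algebraMap k L a))).valuation : ℤ) : ZMod ℓ) * wt χ ψ m v.prime =
        Module.finrank k L * invariant χ ψ m (Algebra.norm ℚ a) := by
      refine Eq.trans ?_ h1
      rw [← finsum_comp_equiv e]
      exact Pool.Agent.K3h48.BM.finsum_sigma hfin0
    rw [← h3]
    by_cases hd : d = 0
    · simp [hd]
    · rw [← mul_finsum']
      exact (hfin0.image e).subset fun v hv => ⟨e.symm v, hv, rfl⟩

end global

end Pool.Agent.H437.NF
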